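import Pool.Agent.H33.Benzel.Final

/-!
MP_6d1bd2_co, Q1 (full answer: yes).

For every odd stone weight `w`, in particular for `w = 3` (the case asked about), the function
`n ↦ T_113(n, 2n-4; w)` on `{n ≥ 5}` is 2-adically continuous.  The objects (`benzel`, `IsStone`,
`IsBone`, `IsTiling`, `tilings`, `numStones`, `T113`) are defined in
`Pool/Agent/H33/Benzel/Defs.lean`, following the problem file word by word.

Proof idea.  The benzel `B(n, 2n-4)` is a triangular array of right stones with two cells missing
at each of its three corners.  Every tiling uses exactly one sink tile, and three non-crossing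
lattice paths of displaced tiles run from the sink to the corners; all other cells are covered by
undisplaced right stones.  This gives an exact formula for `T_113(n, 2n-4; w)` as a triple sum of
products of Motzkin-like path numbers with step weights `1, 1, w^2`.  Modulo `2^k` those numbers
are, since `1 + w^2` is even, given by truncated binomial sums, and sums of such functions are
periodic modulo `2^k` with period a power of two.
-/

namespace Pool.Agent.Results.MP_6d1bd2_co.TwoAdicContinuity

open Pool.Agent.H33.Benzel

/-- `g` is 2-adically continuous on `{n ≥ 5}`. -/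
def TwoAdicallyContinuous (g : ℤ → ℤ) : Prop :=
  ∀ k : ℕ, 1 ≤ k → ∃ j : ℕ, ∀ m n : ℤ, 5 ≤ m → 5 ≤ n → m ≡ n [ZMOD 2 ^ j] →
    g m ≡ g n [ZMOD 2 ^ k]

/-- For every odd `w` (in particular `w = 3`) the function `n ↦ T_113(n, 2n-4; w)` is 2-adically
continuous on `{n ≥ 5}`. -/
theorem result (w : ℕ) (hw : Odd w) :
    TwoAdicallyContinuous (fun n => (T113 n (2 * n - 4) w : ℤ)) := by
  intro k _
  exact T113_modEq (Nat.odd_iff.mp hw) k

end Pool.Agent.Results.MP_6d1bd2_co.TwoAdicContinuity
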